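import Pool.Agent.MWGX.StmtsA

/-!
# MWGX, row EXL: an exchange with a gap keeps the labels modulo the period
-/

set_option autoImplicit false

namespace Pool.Agent.MWGX.H3

open Pool.Agent.Helper14_MV Pool.Agent.Helper2_MV
open Pool.Agent.MWK
open Pool.Agent.MWGN (nn)
open Pool.Agent.MWGQ (pw)

/-- `q ∉ u` implies `q ∉ pw k u` -/
theorem not_pw {q : ℕ} {u : List ℕ} (h : q ∉ u) (k : ℕ) : q ∉ pw k u := fun h' => h (mem_pw h')

/-- adding a multiple of `n` -/
theorem addm (n a k : ℕ) : a + n * k ≡ a [MOD n] := Nat.add_mul_mod_self_left a n k

theorem exl : ExlStmt := by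
  intro n c p Z A B F G H w w' hn hex hgd d q s hs1 hqs hds hq1 hd1
  obtain ⟨he, he'⟩ := hex
  have hnn : ∀ (v : List ℕ) (a b : ℕ), nn v a b = (pre v b).count a := fun _ _ _ => rfl
  have hmul : (n - 1) * c + c = n * c := by
    obtain ⟨m, rfl⟩ : ∃ m, n = m + 1 := ⟨n - 1, by omega⟩
    simp only [Nat.add_sub_cancel]
    ring
  -- counts of `w`
  have hcw : ∀ a, w.count a = p.count a + (n * Z.count a + (A.count a + ((n + c) * Z.count a +
      (B.count a + n * Z.count a)))) + (F.count a + (A.count a + (G.count a + (B.count a +
        H.count a)))) := by
    intro a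
    rw [he]
    simp only [gL, List.count_append, count_pw]
    ring
  by_cases hqp : q ∈ p
  · have e1 : pre w q = pre p q := by rw [he, pre_append_mem hqp]
    have e2 : pre w' q = pre p q := by rw [he', pre_append_mem hqp]
    rw [hnn, hnn, e1, e2]
  have hpq : p.count q = 0 := List.count_eq_zero.2 hqp
  have hsp : s ∉ p := by
    intro hsp
    have e1 : pre w s = pre p s := by rw [he, pre_append_mem hsp]
    rw [hnn, e1] at hq1
    have := count_pre_le p q s
    omega
  have hZs : ∀ a, w.count a = 1 → Z.count a = 0 ∧ A.count a = 0 ∧ B.count a = 0 := by
    intro a ha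
    have h1 := hcw a
    rw [ha] at h1
    have hz : Z.count a ≤ n * Z.count a := Nat.le_mul_of_pos_left _ (by omega)
    refine ⟨?_, ?_, ?_⟩ <;> omega
  obtain ⟨hsZ, hsA, hsB⟩ := hZs s hs1
  have hsZ' : s ∉ Z := List.count_eq_zero.1 hsZ
  have hsA' : s ∉ A := List.count_eq_zero.1 hsA
  have hsB' : s ∉ B := List.count_eq_zero.1 hsB
  have hsgL : s ∉ gL n c Z A B := by
    intro h
    simp only [gL, List.mem_append] at h
    rcases h with h | h | h | h | h
    · exact hsZ' (mem_pw h)
    · exact hsA' h
    · exact hsZ' (mem_pw h)
    · exact hsB' h
    · exact hsZ' (mem_pw h)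
  have hps : pre w s = p ++ (gL n c Z A B ++ pre (F ++ (A ++ (G ++ (B ++ H)))) s) := by
    rw [he, pre_append hsp, pre_append hsgL]
  have hcs : ∀ a, nn w a s = p.count a + (n * Z.count a + (A.count a + ((n + c) * Z.count a +
      (B.count a + n * Z.count a)))) + (pre (F ++ (A ++ (G ++ (B ++ H)))) s).count a := by
    intro a
    rw [hnn, hps]
    simp only [gL, List.count_append, count_pw]
    ring
  have hq2 := hcs q
  rw [hq1] at hq2
  have hZq : Z.count q = 0 := by
    have hz : Z.count q ≤ n * Z.count q := Nat.le_mul_of_pos_left _ (by omega)
    omega
  have hqZ' : q ∉ Z := List.count_eq_zero.1 hZq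
  rw [hZq] at hq2
  simp only [Nat.mul_zero] at hq2
  -- `d` does not occur in `A`, `B` if `s` is in `F`
  have hdF : s ∈ F → A.count d = 0 ∧ B.count d = 0 := by
    intro hsF
    have h1 := hcs d
    rw [hd1, hcw d, pre_append_mem hsF] at h1
    have h2 := count_pre_le F d s
    constructor <;> omega
  by_cases hqA : q ∈ A
  · -- `q` in `A`
    have hcA : 0 < A.count q := List.count_pos_iff.2 hqA
    have hB : B.count q = 0 := by omega
    have hR : (pre (F ++ (A ++ (G ++ (B ++ H)))) s).count q = 0 := by omega
    have hsF : s ∈ F := by
      by_contra hsF
      rw [pre_append hsF, pre_append hsA', List.count_append, List.count_append] at hR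
      omega
    obtain ⟨hdA, hdB⟩ := hdF hsF
    have hqB' : q ∉ B := List.count_eq_zero.1 hB
    have e1 : pre w q = p ++ (pw n Z ++ pre A q) := by
      rw [he, pre_append hqp]
      simp only [gL, List.append_assoc]
      rw [pre_append (not_pw hqZ' n), pre_append_mem hqA]
    have e2 : pre w' q = p ++ (pw (n + c) Z ++ (B ++ (pw (n + (n - 1) * c) Z ++ pre A q))) := by
      rw [he', pre_append hqp]
      simp only [gR, List.append_assoc]
      rw [pre_append (not_pw hqZ' _), pre_append hqB', pre_append (not_pw hqZ' _),
        pre_append_mem hqA]
    have hA0 : (pre A q).count d = 0 := by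
      have := count_pre_le A d q
      omega
    have f1 : nn w d q = p.count d + n * Z.count d := by
      rw [hnn, e1]
      simp only [List.count_append, count_pw, hA0]
      ring
    have f2 : nn w' d q = p.count d + n * Z.count d + n * ((1 + c) * Z.count d) := by
      rw [hnn, e2]
      simp only [List.count_append, count_pw, hA0, hdB]
      have : p.count d + ((n + c) * Z.count d + (0 + ((n + (n - 1) * c) * Z.count d + 0)))
          = p.count d + n * Z.count d + (n + ((n - 1) * c + c)) * Z.count d := by ring
      rw [this, hmul]
      ring
    rw [f1, f2]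
    exact (addm _ _ _).symm
  · by_cases hqB : q ∈ B
    · -- `q` in `B`
      have hcB : 0 < B.count q := List.count_pos_iff.2 hqB
      have hR : (pre (F ++ (A ++ (G ++ (B ++ H)))) s).count q = 0 := by omega
      have hdd : A.count d = 0 ∧ B.count d = 0 := by
        by_cases hsF : s ∈ F
        · exact hdF hsF
        · by_cases hsG : s ∈ G
          · rcases hgd with hg | ⟨H1, H2, hH⟩
            · have := hg s hsG
              omega
            · have h1 := hcs d
              rw [hd1, hcw d, pre_append hsF, pre_append hsA', pre_append_mem hsG,
                List.count_append, List.count_append, hH, List.count_append, List.count_append]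
                at h1
              have h2 := count_pre_le G d s
              constructor <;> omega
          · exfalso
            rw [pre_append hsF, pre_append hsA', pre_append hsG, pre_append hsB',
              List.count_append, List.count_append, List.count_append, List.count_append] at hR
            omega
      obtain ⟨hdA, hdB⟩ := hdd
      have e1 : pre w q = p ++ (pw n Z ++ (A ++ (pw (n + c) Z ++ pre B q))) := by
        rw [he, pre_append hqp]
        simp only [gL, List.append_assoc]
        rw [pre_append (not_pw hqZ' n), pre_append hqA, pre_append (not_pw hqZ' _),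
          pre_append_mem hqB]
      have e2 : pre w' q = p ++ (pw (n + c) Z ++ pre B q) := by
        rw [he', pre_append hqp]
        simp only [gR, List.append_assoc]
        rw [pre_append (not_pw hqZ' _), pre_append_mem hqB]
      have hB0 : (pre B q).count d = 0 := by
        have := count_pre_le B d q
        omega
      have f1 : nn w d q = p.count d + (n + c) * Z.count d + n * Z.count d := by
        rw [hnn, e1]
        simp only [List.count_append, count_pw, hB0, hdA]
        ring
      have f2 : nn w' d q = p.count d + (n + c) * Z.count d := by
        rw [hnn, e2]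
        simp only [List.count_append, count_pw, hB0]
        ring
      rw [f1, f2]
      exact addm _ _ _
    · -- `q` in neither
      have hgL : q ∉ gL n c Z A B := by
        intro h
        simp only [gL, List.mem_append] at h
        rcases h with h | h | h | h | h
        · exact hqZ' (mem_pw h)
        · exact hqA h
        · exact hqZ' (mem_pw h)
        · exact hqB h
        · exact hqZ' (mem_pw h)
      have hgR : q ∉ gR n c Z A B := by
        intro h
        simp only [gR, List.mem_append] at h
        rcases h with h | h | h | h | h
        · exact hqZ' (mem_pw h)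
        · exact hqB h
        · exact hqZ' (mem_pw h)
        · exact hqA h
        · exact hqZ' (mem_pw h)
      have e1 : pre w q = p ++ (gL n c Z A B ++ pre (F ++ (A ++ (G ++ (B ++ H)))) q) := by
        rw [he, pre_append hqp, pre_append hgL]
      have e2 : pre w' q = p ++ (gR n c Z A B ++ pre (F ++ (A ++ (G ++ (B ++ H)))) q) := by
        rw [he', pre_append hqp, pre_append hgR]
      have f2 : nn w' d q = nn w d q + n * (c * Z.count d) := by
        rw [hnn, hnn, e1, e2]
        simp only [gL, gR, List.count_append, count_pw]
        generalize (pre (F ++ (A ++ (G ++ (B ++ H)))) q).count d = r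
        have : p.count d + ((n + c) * Z.count d + (B.count d + ((n + (n - 1) * c) * Z.count d +
            (A.count d + (n + c) * Z.count d))) + r) = p.count d + A.count d + B.count d + r +
              (3 * n + c + ((n - 1) * c + c)) * Z.count d := by ring
        rw [this, hmul]
        ring
      rw [f2]
      exact (addm _ _ _).symm

end Pool.Agent.MWGX.H3
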